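import Pool.Agent.MP_8be872_ag.H63.LocA
import Pool.Agent.MP_8be872_ag.H63.SpecB

/-! The complex of the statement and the invariants. -/

namespace Pool.Agent.MP_8be872_ag.H41

open Finset H38 H56 H63 MvPolynomial

section Gen

variable {E O J : Type} [Fintype E] [Fintype O] [Fintype J] [DecidableEq E] [DecidableEq O]
  [DecidableEq J] {δ : Gn E O J → Op E O J} {f : J → MvPolynomial (E ⊕ J) ℂ}

/-- An even derivation that does not see the Čech variables. -/
structure Ev (δ : Gn E O J → Op E O J) : Prop where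
  par : ∀ g, δ g ∈ words fun μ => ((∀ j, μ (tv j) = 0) ∧ ∀ j, μ (ev j) = 0) ∧
    od μ = xor g.isRight false
  zt : ∀ j, δ (tv j) = 0
  ze : ∀ j, δ (ev j) = 0

theorem Ev.par' (h : Ev δ) (g : Gn E O J) : δ g ∈ words fun μ => od μ = xor g.isRight false :=
  words_le (fun _ a => a.2) (h.par g)

theorem Ev.gn (h : Ev δ) {g : Gn E O J} (hg : δ g = 0) : Commute (vf δ) (gn g) := by
  have := vf_gn h.par' g
  rwa [Bool.false_and, sgF, hg, sub_eq_zero] at this

theorem Ev.mul (h : Ev δ) {F : MvPolynomial (E ⊕ J) ℂ} (hF : vf δ (pol F) = 0) :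
    Commute (vf δ) (mul F) :=
  (vf_mul_comm_iff (fun g => words_le (fun _ _ => trivial) (h.par g)) F).2 hF

theorem Ev.dr (h : Ev δ) (j : J) : Commute (vf δ) (dr (tv j)) := by
  refine Commute.sum_left _ _ _ fun g _ => Commute.mul_left ?_ ?_
  · have := words_false (dr_br (P := fun μ => μ (tv j) = 0) (P' := fun _ => False) (tv j)
      (words_le (fun _ a => ⟨a.1.1 j, a.2⟩) (h.par g)) fun μ a => by simp at a) fun _ => id
    rw [Sum.isRight_inl, Bool.false_and, sgF, sub_eq_zero] at this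
    exact this.symm
  · have := dr_mul_dr (tv j : Gn E O J) g
    rw [Sum.isRight_inl, Bool.false_and, sgF] at this
    exact this.symm

theorem Ev.dloc (h : Ev δ) (hf : ∀ j, vf δ (pol (f j)) = 0) {δ' : Gn E O J → Op E O J}
    (hc : Commute (vf δ) (vf δ')) (A : Finset J) : Commute (vf δ) (Dloc δ' 0 f A) :=
  ((hc.sub_right (Commute.sum_right _ _ _ fun j _ =>
    ((((h.gn (h.zt j)).mul_right (h.gn (h.zt j))).mul_right
      ((hc.mul_right (h.mul (hf j))).sub_right ((h.mul (hf j)).mul_right hc))).mul_right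
        (h.dr j)))).add_right (Commute.zero_right _)).add_right
    (Commute.sum_right _ _ _ fun j _ => h.gn (h.ze j))

theorem Ev.rel (h : Ev δ) (hf : ∀ j, vf δ (pol (f j)) = 0) {x : Sp (E ⊕ J) (O ⊕ J)}
    (hx : x ∈ rel f) : vf δ x ∈ rel f := by
  refine vf_rel h.par' h.ze (fun j => ⟨0, zero_mem _, ?_⟩) hx
  have e : (H63.mul (f j * X (.inr j) - 1) : Op E O J) = H63.mul (f j) * H63.gn (tv j) - 1 := by
    exact (map_sub (mulA (O := O ⊕ J)) _ _).trans (by rw [map_mul, map_one]; rfl)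
  rw [zero_mul, e, sub_eq_zero]
  exact (((h.mul (hf j)).mul_right (h.gn (h.zt j))).sub_right (Commute.one_right _)).eq

theorem Ev.pat (h : Ev δ) (U : (J → ℕ) → Prop) {x : Sp (E ⊕ J) (O ⊕ J)}
    (hx : x ∈ mono fun μ => U fun j => μ (ev j)) : vf δ x ∈ mono fun μ => U fun j => μ (ev j) := by
  refine vf_mem (Pg := fun g μ => (∀ j, μ (ev j) = 0) ∧ ∀ j, g ≠ ev j) (fun g => ?_) hx
    fun g μ ν a b => ?_
  · by_cases hg : ∃ j, g = ev j
    · obtain ⟨j, rfl⟩ := hg
      rw [h.ze]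
      exact zero_mem _
    · exact words_le (fun _ a => ⟨a.1.2, fun j e => hg ⟨j, e⟩⟩) (h.par g)
  · have e : (fun j => (ν + μ) (ev j)) = fun j => (μ + Pi.single g 1 : Gn E O J → ℕ) (ev j) := by
      funext j
      rw [Pi.add_apply, Pi.add_apply, b.1, Pi.single_eq_of_ne (b.2 j).symm, zero_add, add_zero]
    rwa [e]

theorem Ev.proj (h : Ev δ) (U : (J → ℕ) → Prop) (x : Sp (E ⊕ J) (O ⊕ J)) :
    proj (fun μ => U fun j => μ (ev j)) (vf δ x) = vf δ (proj (fun μ => U fun j => μ (ev j)) x) :=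
  proj_comm (A := fun _ => True) (fun _ hy => h.pat U (mono_le (fun _ a => a.2) hy))
    (fun _ hy => h.pat (fun t => ¬ U t) (mono_le (fun _ a => a.2) hy))
    (mem_mono.2 fun _ _ _ => trivial)

theorem pat_rel (U : (J → ℕ) → Prop) {x : Sp (E ⊕ J) (O ⊕ J)} (hx : x ∈ rel f) :
    proj (fun μ => U fun j => μ (ev j)) x ∈ rel f := by
  refine proj_rel (A := univ) (fun j _ m _ μ _ => ?_) (mem_mono.2 fun _ _ _ _ _ => mem_univ _) hx
  have e : (fun i => (μ + ex ∅ m + Pi.single (tv j) 1 : Gn E O J → ℕ) (ev i)) =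
      fun i => μ (ev i) := by
    funext i
    simp [ex]
  rw [e]

end Gen

variable {Q : Quiv} {w v D : Fin Q.n → ℕ} {J : Type} [Fintype J] [DecidableEq J]

theorem lie_ev (h : Glob2At Q w v D J) (R : Nb Q w v D → Nb Q w v D → Prop) (a b : Nb Q w v D) :
    ∃ δ : _ → OpQ Q w v D J, lie R a b = vf δ ∧ Ev δ := by
  obtain ⟨δ, h1, h2, h3⟩ := h.val R a b
  refine ⟨δ, h1, fun g => words_le ?_ (h3 g), fun j => h2 _ id, fun j => h2 _ id⟩
  rintro μ ⟨k, p, q, p', q', rfl, rfl, -⟩
  rw [od_single]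
  rcases k with k | k <;> simp [gg]

theorem homog (f : J → MvPolynomial (Ix Q w v D J) ℂ) (φ : J → G) (hc : Cover f φ) (j : J) :
    Homog (f j) (φ j) := by
  refine mono_le (fun μ a => ⟨fun g hg => ?_, ?_⟩) (hc.1 j).2.1
  · obtain ⟨τ, p, q, h1, h2, rfl⟩ := a.2 g hg
    refine ⟨h2, ?_⟩
    rcases τ with τ | _ | _
    · rfl
    · exact absurd rfl h1
    · rfl
  · rw [← a.1, ws]
    refine sum_congr rfl fun g _ => ?_
    by_cases hg : μ g = 0
    · rw [hg, zero_smul, zero_smul]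
    · obtain ⟨τ, p, q, -, -, rfl⟩ := a.2 g hg
      rfl

theorem coch_eq (f : J → MvPolynomial (Ix Q w v D J) ℂ) (φ : J → G) (γ : G) (p : Bool) :
    coch f φ γ p = ZZ (AlG rad) (wt bw φ) ∅ univ γ p ⊓
      ⨅ (a) (b) (_ : a ≠ b ∧ LevP Q w v D rad a b), (rel f).comap (lie rad a b) := by
  have e : ∀ a b : Nb Q w v D, (a ≠ b ∧ arrow (.inr true) a b ∧ blk a = blk b) =
      (a ≠ b ∧ LevP Q w v D rad a b) := fun a b => by
    refine propext (and_congr_right fun _ => ?_)
    simp only [arrow, LevP, and_true]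
    constructor
    · rintro ⟨⟨h1, h2, h3⟩, h4⟩
      exact ⟨h1, h4, by omega⟩
    · rintro ⟨h1, h2, h3⟩
      exact ⟨⟨h1, by omega, by omega⟩, h2⟩
  unfold coch ZZ
  simp only [e]
  congr 2
  funext μ
  refine propext ⟨fun a => ⟨⟨fun g hg => ?_, by simp, a.2.1⟩, a.2.2.1, ?_⟩,
    fun a => ⟨fun g hg => ?_, a.1.2.2, a.2.1, ?_⟩⟩
  · have := a.1 g hg
    rcases g with (⟨τ, p, q⟩ | j) | (⟨τ, p, q⟩ | j)
    · exact .inl this
    · exact .inr (.inl ⟨j, rfl, this⟩)
    · exact .inl this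
    · exact .inr (.inr ⟨j, by simp, rfl⟩)
  · have := a.2.2.2
    rw [od, Bool.eq_iff_iff, decide_eq_true_iff]
    exact this
  · have := a.1.1 g hg
    rcases g with (⟨τ, p, q⟩ | j) | (⟨τ, p, q⟩ | j)
    · simpa [AlG, ofM] using this
    · simpa [AlG, ofM] using this
    · simpa [AlG, ofM] using this
    · trivial
  · rw [← a.2.2, od, decide_eq_true_iff]

theorem glob3 : Glob1Stmt → Glob2Stmt → Glob3Stmt := by
  intro h1 h2 Q w v D J _ _ f φ
  have g1 := h1 Q w v D J
  have g2 := h2 Q w v D J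
  have key : ∀ R : Nb Q w v D → Nb Q w v D → Prop, R = rad ∨ R = radF → ∀ a b,
      LevP Q w v D R a b → (∀ j, lie R a b (pol (f j)) = 0) →
      (∀ A, lie R a b * Dloc (dG R) 0 f A = Dloc (dG R) 0 f A * lie R a b) ∧
        ∀ x ∈ rel f, lie R a b x ∈ rel f := fun R hR a b hab hf => by
    have hc := g2.comm R hR a b hab
    obtain ⟨δ, e, hδ⟩ := lie_ev g2 R a b
    rw [e] at hc hf ⊢
    exact ⟨fun A => (hδ.dloc hf hc A).eq, fun x hx => hδ.rel hf hx⟩
  refine ⟨fun hc => ?_, fun hs => ?_⟩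
  · have hH := homog f φ hc
    have hE : ∀ j, (pol (f j) : Sp (Ix Q w v D J) (Ix Q w v D J)) ∈ mono (sup E0G) := fun j =>
      mono_le (fun _ a => a.1) (hH j)
    have hz : ∀ (R : Nb Q w v D → Nb Q w v D → Prop) j a b, a ≠ b → vx a = vx b → blk a ≤ blk b →
        blk b < 2 → lie R a b (pol (f j)) = 0 := fun R j a b n e l l' => by
      rw [g2.onPol R rad a b _ (hE j)]
      exact (hc.1 j).2.2 a b n ⟨e, by omega, l'⟩ l
    have hK : ∀ j b, b < 2 → Const w v D b (φ j) := fun j b hb =>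
      g2.const (f j) (φ j) b hb (hc.1 j).1 (hH j) fun p q n e a1 a2 =>
        hz rad j p q n e (by omega) (by omega)
    have hcl : ∀ R : Nb Q w v D → Nb Q w v D → Prop, R = rad ∨ R = radF →
        ∀ j, vf (dG R) * mul (f j) = mul (f j) * vf (dG R) := fun R hR j => by
      rw [← sub_eq_zero, g2.dpol R _ (hE j)]
      refine sum_eq_zero fun a _ => sum_eq_zero fun b _ => ?_
      by_cases hs : shape R kc a b
      · have s1 : vx a = vx b ∧ blk a < 2 ∧ blk b < 2 := hs.1
        have s2 : R a b := hs.2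
        have s3 : a ≠ b ∧ blk a ≤ blk b := by
          have k : blk a < blk b → a ≠ b ∧ blk a ≤ blk b := fun l =>
            ⟨fun e => l.ne (congrArg _ e), l.le⟩
          rcases hR with rfl | rfl
          · exact k s2
          · rcases s2 with l | ⟨a', b', rfl, rfl, l⟩
            · exact k l
            · refine ⟨fun e => ?_, le_rfl⟩
              obtain rfl : a' = b' := by simpa using e
              exact lt_irrefl _ l
        have hz' := hz R j a b s3.1 s1.1 s3.2 s1.2.2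
        obtain ⟨δ, e, hδ⟩ := lie_ev g2 R a b
        rw [e] at hz' ⊢
        rw [(hδ.mul hz').eq, sub_self, mul_zero]
      · have : Yg (J := J) R kc a b = 0 := if_neg hs
        rw [this, zero_mul]
    have hD : Dif = Dloc (dG rad) 0 f univ := by
      unfold Dloc
      simp only [hcl rad (.inl rfl), sub_self, mul_zero, zero_mul, sum_const_zero, sub_zero,
        add_zero]
      rfl
    have hG := (g1.1 rad (.inl rfl)).1 φ f hH
    refine ⟨fun j => ⟨⟨hH j, hK j 0 (by omega), fun a b o =>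
      hz radF j a b o.1 o.2.1 (by rw [o.2.2.1, o.2.2.2]) (by rw [o.2.2.2]; omega)⟩,
      hK j 1 (by omega)⟩, hcl, hD, coch_eq f φ, fun γ p x hx => ?_⟩
    rw [coch_eq] at hx ⊢
    rw [hD]
    refine ⟨⟨hG.Dloc_ZZ (by simp) hx.1, ?_⟩, hG.Dloc_rel _, ?_⟩
    · have hx2 := hx.2
      simp only [SetLike.mem_coe, Submodule.mem_iInf, Submodule.mem_comap] at hx2 ⊢
      intro a b hab
      have := (key rad (.inl rfl) a b hab.2 fun j => hz rad j a b hab.1 hab.2.1 hab.2.2.1.le (by
        have := hab.2.2.1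
        have := hab.2.2.2
        omega)).1 univ
      rw [← Module.End.mul_apply, this, Module.End.mul_apply]
      exact hG.Dloc_rel _ (hx2 a b hab)
    · rw [← Module.End.mul_apply, hG.Dloc_sq, LinearMap.zero_apply]
  · have hG := (g1.1 radF (.inr rfl)).1 φ f fun j => (hs j).1
    have k : ∀ a b, offT a b → _ := fun a b o => key radF (.inr rfl) a b
      ⟨o.2.1, o.2.2.1.trans o.2.2.2.symm, .inl o.2.2.1⟩ fun j => (hs j).2.2 a b o
    refine ⟨⟨fun U x hx => ?_, fun A x hx => ?_⟩, k⟩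
    · simp only [InvT, Submodule.mem_iInf, Submodule.mem_comap] at hx ⊢
      intro a b o
      have := hx a b o
      obtain ⟨δ, e, hδ⟩ := lie_ev g2 radF a b
      rw [e] at this ⊢
      rw [← hδ.proj]
      exact pat_rel U this
    · simp only [InvT, Submodule.mem_iInf, Submodule.mem_comap] at hx ⊢
      intro a b o
      rw [← Module.End.mul_apply, (k a b o).1, Module.End.mul_apply]
      exact hG.Dloc_rel _ (hx a b o)

end Pool.Agent.MP_8be872_ag.H41
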